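import Pool.Agent.Helper45.EQM.Final

/-!
# Tame representations of every dimension with an arbitrary residual field

Let `K` be a number field, `n ≥ 1`, and `c = 2 ^ k ≥ 2` with `2 (n - 1) ≤ c`. Let `M₀` be `K`, or any finite
Galois extension of `K` in which two infinite places of `K` split completely; for example any finite Galois
extension if `K` has two complex places. There are cyclic extensions `F` of `K` of degree `c` in which all
infinite places of `K` split and which intersect `M₀` in `K` (`exists_field`). For every such `F`, with
compositum `M` of `M₀` and `F`, and all prime numbers `p` congruent to `1` modulo `c` which are larger than a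
bound depending on `M₀`, `F` and `n`, we prove that there are infinitely many sets `S` of THREE primes of
`K` with the following property. Let `E` be a field between `K` and `M`, for example `K` or `M₀`, let `S'` be
a finite set of primes of `E` such that all `v` in `S'` which do not lie above `p` and such that `p` divides
`(N v) ^ [M : E] - 1` lie above `S`, and let `A` be any complete Noetherian local ring with finite residue
field of characteristic `p`. Then all continuous homomorphisms `ρ` from the absolute Galois group of `E` to
`GL_m(A)` with `m ≤ n`, which are unramified outside `S'` and at most tamely ramified in `S'`, and such that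
the image of the absolute Galois group of `M` in `PGL_m` of the residue field is a `p`-group, have finite
image (`result`). So the residual representation may be any representation, of dimension at most `n` over a
finite field of characteristic `p`, of the Galois group of `M₀` over `K`: all tame deformations of it which are
ramified only at `S` and at the primes which ramify in `M₀` have finite image (the latter primes are allowed in
`S'` if `p` is large). For `M₀ = K` and `E = K` or `E = F` this is the former hand-in EveryDimension.

The Galois group `G_{M,S}(p)` of the maximal `p`-extension of `M` unramified outside the primes above `S` is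
infinite if `p` is not too small: there is a cyclic extension `L` of `M` of degree `p` which is Galois over
`K` and unramified outside `S`, whose group of units has rank `p (r + 1) - 1`, where `r` is the rank of the
group of units of `M`, and there are exactly `p ^ (δ + 1)` continuous characters of the absolute Galois
group of `L` with values in the group of order `p` which are unramified outside the primes above `S`; here
`δ` is any number congruent to `1` modulo `c` with `2 δ ≤ p`. By results of Shafarevich and Koch the
Galois group of the maximal `p`-extension of `L` unramified outside the primes above `S`, which is a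
subgroup of `G_{M,S}(p)` of index `p`, is generated by `δ + 1` elements and can be presented by
`δ + p (r + 1)` relations. If `16 (r + 1) + 4 c + 2 ≤ p`, then `δ` can be chosen such that
`4 (δ + p (r + 1)) ≤ (δ + 1) ^ 2` (`golod`), and this group is infinite by the theorem of Golod and
Shafarevich.

Idea of the proof. Let `Q` be the Galois group of `M` over `K`, `Δ` the subgroup which fixes `F`, and let
`σ` in `Q` of order `c` fix `M₀` and generate the Galois group of `F` over `K`; `p` does not divide the order
of `Δ`.

1. The primes `v₀`, `v₁`, `v₂` in `S` are found with a form of the density theorem of Frobenius: a cyclic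
extension `H / H'` of degree `2 ^ a` of number fields and a functional on finitely many elements of `H`
which transforms under the generator by `g` modulo `p` are given; then there is a prime of `H'` of degree one
with only one prime of `H` above it, whose logarithm modulo `p` has the given values.
The prime `v₀` has one prime above it in `F`, all units of `F` are `p`-th powers modulo this prime, and
its norm over `K` has order `c` modulo `p`. It defines a cyclic extension `L₀` of `F` of degree `p` which is
Galois over `K`, with group `⟨h⟩ ⋊ ⟨σ⟩`, `σ h σ⁻¹ = h ^ ω`, and `L` is the compositum of `M` and `L₀`.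

2. Let `D = - log h`, a derivation of the polynomial functions of `s` in the field with `p` elements. The
primes of `L₀` above `v₁` and `v₂` are the `h ^ s σ ^ j w₁`, `h ^ s σ ^ j w₂`, `j < c / 2`. The norm of
`v₁` is congruent to `-1` modulo `p ^ 2`, the norm of `v₂` is congruent to `1` modulo `p` and not modulo
`p ^ 2`. The logarithms at `w₁` and `w₂` on the units are the odd and the even part of a functional such
that the characters of `L₀` unramified outside the primes above `S` are given by the polynomials `f` of degree
at most `δ`: the coordinate at `h ^ s σ ^ j w₁` is `ω ^ j f'(s)`, at `h ^ s σ ^ j w₂` it is `f(s)`, and the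
value at a Frobenius element of `h ^ s σ ^ j w₁` is `- ∑ ω ^ (2 e j) f^(2 e)(s)`, the sum over `e < c / 2`.

3. The two split places `W₁`, `W₂` give units of `M` which are large only at one place, and two functionals
`m₁`, `m₂` modulo `p` on the units of `M` whose conjugates under `Q` satisfy no linear relation except the
two trivial ones (a maximum principle for the weighted sum over both places). The primes `v₀`, `v₁`, `v₂` are
chosen such that the logarithms at the primes of `M` above them are, up to `Δ`-invariant functionals, the
`ω`-part of `m₂` under `σ` and the odd and the even part of `m₁` under `σ ^ (c / 2)`. Then every character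
of `M` of order `p` unramified outside `S` is invariant under `Δ`.

4. As `L` over `M` is a cyclic extension of degree `p` ramified only above `v₀`, a fixed point argument shows
that every character of `L` unramified outside the primes above `S` is invariant under the Galois group of
`L` over `L₀`, so it is the restriction of a character of `L₀`. The decomposition groups in `L` over `L₀` at
the primes above `S` are trivial, so `L` has the same inertia and Frobenius vectors as `L₀`.

5. Let `γ(s) = (1, s, ..., s ^ δ)`. As in the hand-in UnitRank, the first coefficient of a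
representation over a discrete valuation ring gives alternating forms `W` on the space of dimension `δ + 1`
of rank at most `2 (m - 1)`, and the relations at the primes above `v₁` say that
`∑ ω ^ (j (2 e + 1)) W(γ^(2 e)(s), γ'(s)) = 0` for all `j < c / 2`. So the character `ω` separates the
orders: `W(γ^(2 e)(s), γ'(s)) = 0` for all `e < c / 2`. If `W` is not zero and `i` is the order of vanishing of
`W(γ(s), γ(t))` on the diagonal, then `i` is odd, so `i > c`, and the matrix of the mixed derivatives of
order at most `i` is triangular, so the rank of `W` is more than `c ≥ 2 (n - 1)`, a contradiction.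
So `W = 0`, and the primes above `v₂` show that the linear forms vanish also. The criterion of
the earlier hand-ins gives finite image for `L`, and this gives finite image for `M` and for `E`.
-/

set_option autoImplicit false

open NumberField IsLocalRing Matrix

open scoped Pointwise

namespace Pool.Agent.Results.MP_924d78_nt.ArbitraryResidualField

/-- The absolute Galois group of the field `K`. -/
abbrev G (K : Type) [Field K] : Type := AlgebraicClosure K ≃ₐ[K] AlgebraicClosure K

/-- The homomorphism `ρ` is unramified outside `S` and at most tamely ramified in `S`: for every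
number field `F` containing `K` and embedded over `K` into the fixed field of the kernel of `ρ`,
and every maximal ideal `P` of the ring of integers of `F` above a prime `q` of `K`, the ramification
index `e` of `P` over `q` is `1` if `q ∉ S` and is prime to the residue characteristic if `q ∈ S`. -/
def TameAt (K : Type) [Field K] [NumberField K] (S : Set (Ideal (𝓞 K))) {H : Type} [Group H]
    (ρ : G K →* H) : Prop :=
  ∀ (F : Type) [Field F] [NumberField F] [Algebra K F] (ι : F →ₐ[K] AlgebraicClosure K),
    ι.fieldRange ≤ IntermediateField.fixedField ρ.ker →
    ∀ (P : Ideal (𝓞 F)), P.IsMaximal →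
    ∀ (q : Ideal (𝓞 K)), q = P.comap (algebraMap (𝓞 K) (𝓞 F)) →
    ∀ e : ℕ, q.map (algebraMap (𝓞 K) (𝓞 F)) ≤ P ^ e →
      ¬ (q.map (algebraMap (𝓞 K) (𝓞 F)) ≤ P ^ (e + 1)) →
      (q ∉ S → e = 1) ∧ (q ∈ S → ¬ (ringChar (𝓞 K ⧸ q) ∣ e))

/-- The residual representation: the reduction of `ρ` modulo the maximal ideal. -/
noncomputable def residual {Γ A : Type} [Group Γ] [CommRing A] [IsLocalRing A] {n : ℕ}
    (ρ : Γ →* GL (Fin n) A) : Γ →* GL (Fin n) (ResidueField A) :=
  (Matrix.GeneralLinearGroup.map (residue A)).comp ρ

/-- The image under `τ` of the automorphisms which fix the number field `M` is projectively a `p`-group: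
for every such `g` some power of `τ g` with exponent a power of `p` is scalar. -/
def ProjectivelyPOver (p : ℕ) (M : Type) {E k : Type} [Field M] [Field E]
    [Algebra M (AlgebraicClosure E)] [Field k] {n : ℕ} (τ : G E →* GL (Fin n) k) : Prop :=
  ∀ g : G E, (∀ x : M, g (algebraMap M (AlgebraicClosure E) x) =
    algebraMap M (AlgebraicClosure E) x) →
    ∃ (j : ℕ) (a : k), ((τ g ^ p ^ j : GL (Fin n) k) : Matrix (Fin n) (Fin n) k) = a • 1

/-- The homomorphism `ψ` to the group of order `p` is continuous and unramified outside `S`: its kernel
is open and it is trivial on the inertia groups of all maximal ideals `Q` of the ring of all algebraic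
integers which lie above a prime outside `S`. -/
def UnramifiedOutside (p : ℕ) {K : Type} [Field K] [NumberField K] (S : Set (Ideal (𝓞 K)))
    (ψ : G K →* Multiplicative (ZMod p)) : Prop :=
  IsOpen (ψ.ker : Set (G K)) ∧ ∀ Q : Ideal (𝓞 (AlgebraicClosure K)), Q.IsMaximal →
    Q.comap (algebraMap (𝓞 K) (𝓞 (AlgebraicClosure K))) ∉ S → ∀ γ ∈ Q.inertia (G K), ψ γ = 1

/-- The field `F` is a cyclic extension of `K` of degree `c`, and all infinite places of `K` split
completely in `F`. -/
structure SplitCyclic (K : Type) [Field K] [NumberField K] (c : ℕ)
    (F : IntermediateField K (AlgebraicClosure K)) : Prop where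
  galois : IsGalois K F
  cyclic : IsCyclic (F ≃ₐ[K] F)
  degree : Module.finrank K F = c
  infinite : IsUnramifiedAtInfinitePlaces K F

/-- The field `M₀` is `K`, or it is a Galois extension of `K` and there are two infinite places of `K`
which split completely in `M₀`. -/
structure TwoSplit (K : Type) [Field K] [NumberField K]
    (M₀ : IntermediateField K (AlgebraicClosure K)) : Prop where
  galois : IsGalois K M₀
  split : M₀ = ⊥ ∨ ∃ v₁ v₂ : InfinitePlace K, v₁ ≠ v₂ ∧ ∀ w : InfinitePlace M₀,
    w.comap (algebraMap K M₀) = v₁ ∨ w.comap (algebraMap K M₀) = v₂ → w.IsUnramified K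

/-- The set `S` consists of three primes `P` of `K`, the residue fields of `P` have a prime number `q`
of elements, and `q ^ c` is congruent to `1` modulo `p`. -/
structure Primes (p c : ℕ) (K : Type) [Field K] [NumberField K] (S : Finset (Ideal (𝓞 K))) :
    Prop where
  card_eq : S.card = 3
  maximal : ∀ P ∈ S, P.IsMaximal
  prime : ∀ P ∈ S, (Nat.card (𝓞 K ⧸ P)).Prime
  dvd : ∀ P ∈ S, p ∣ Nat.card (𝓞 K ⧸ P) ^ c - 1

/-- The number field `L` is a Galois extension of `K` and a cyclic extension of `M` of degree `p`, it is
unramified over `M` outside `S`, the rank of its group of units is `p (r + 1) - 1`, where `r` is the rank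
for `M`, and there are `p ^ d` continuous homomorphisms from the absolute Galois group of `L` to the
group of order `p` which are unramified outside the primes above `S`. -/
structure Layer (p : ℕ) (K M L : Type) [Field K] [NumberField K] [Field M] [NumberField M] [Field L]
    [NumberField L] [Algebra K M] [Algebra M L] [Algebra K L] (d : ℕ) (S : Set (Ideal (𝓞 K))) :
    Prop where
  tower : IsScalarTower K M L
  galois : IsGalois K L
  degree : Module.finrank M L = p
  unramified : ∀ P : Ideal (𝓞 L), P.IsMaximal → P.comap (algebraMap (𝓞 K) (𝓞 L)) ∉ S →
    ¬ (P.comap (algebraMap (𝓞 M) (𝓞 L))).map (algebraMap (𝓞 M) (𝓞 L)) ≤ P ^ 2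
  rank_eq : Units.rank L + 1 = p * (Units.rank M + 1)
  characters : Nat.card {ψ : G L →* Multiplicative (ZMod p) //
    UnramifiedOutside p {P | P.comap (algebraMap (𝓞 K) (𝓞 L)) ∈ S} ψ} = p ^ d

/-- There are fields `F` as in the theorem, of every degree `2 ^ k` and for every `M₀`. -/
theorem exists_field (K : Type) [Field K] [NumberField K]
    (M₀ : IntermediateField K (AlgebraicClosure K)) [NumberField M₀] (k : ℕ) :
    ∃ (F : IntermediateField K (AlgebraicClosure K)) (_ : NumberField F),
      SplitCyclic K (2 ^ k) F ∧ M₀ ⊓ F = ⊥ := by
  obtain ⟨F, hF, h1, h2, h3, h4, h5⟩ := Helper45.EQM.exists_field K M₀ (c := 2 ^ k) (by positivity)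
  exact ⟨F, hF, ⟨h1, h2, h3, h4⟩, h5⟩

/-- Let `K` be a number field, `k ≥ 1`, `2 (n - 1) ≤ 2 ^ k`, let `M₀` be `K` or a finite Galois extension
of `K` in which two infinite places of `K` split completely, let `F` be a cyclic extension of `K` of
degree `2 ^ k` in which all infinite places split and such that the intersection of `F` and `M₀` is `K`,
and let `M` be the compositum of `M₀` and `F`. For all large `p` congruent to `1` modulo `2 ^ k`, all `δ`
congruent to `1` modulo `2 ^ k` with `2 δ ≤ p` and all finite sets `B` of primes of `K` there are a set
`S` of three primes outside `B` as in `Primes` and a field `L` as in `Layer` with `p ^ (δ + 1)` characters,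
such that for all complete Noetherian local rings `A` with finite residue field of characteristic `p`, all
`m ≤ n` and all fields `E` between `K` and `M` (for example `K`, `M₀` and `M`): all `ρ` from the absolute
Galois group of `E` to `GL_m(A)` which are tame and ramified only in a finite set `S'` whose members `P`,
not above `p`, with `p ∣ (N P) ^ [M : E] - 1` are above `S`, and whose residual representation restricted
to `M` has projective image a `p`-group, have finite image. -/
theorem result (K : Type) [Field K] [NumberField K] (n k : ℕ) (hk : 1 ≤ k)
    (hn : 2 * (n - 1) ≤ 2 ^ k) (M₀ F M : IntermediateField K (AlgebraicClosure K))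
    [NumberField M₀] [NumberField F] [NumberField M] (hM₀ : TwoSplit K M₀)
    (hF : SplitCyclic K (2 ^ k) F) (hd : M₀ ⊓ F = ⊥) (hM : M = M₀ ⊔ F) :
    ∃ N : ℕ, ∀ (p : ℕ) [Fact p.Prime], N < p → p ≡ 1 [MOD 2 ^ k] → ∀ δ : ℕ, δ ≡ 1 [MOD 2 ^ k] →
      2 * δ ≤ p → ∀ B : Set (Ideal (𝓞 K)), B.Finite →
      ∃ S : Finset (Ideal (𝓞 K)), (∀ P ∈ S, P ∉ B) ∧ Primes p (2 ^ k) K S ∧
      (∃ (L : Type) (_ : Field L) (_ : NumberField L) (_ : Algebra K L) (_ : Algebra M L),
        Layer p K M L (δ + 1) (S : Set (Ideal (𝓞 K)))) ∧
      ∀ (A : Type) [CommRing A] [IsLocalRing A] [IsNoetherianRing A] [TopologicalSpace A]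
      [CharP (ResidueField A) p] [Finite (ResidueField A)] [IsAdicComplete (maximalIdeal A) A],
      IsAdic (maximalIdeal A) → ∀ m ≤ n,
      ∀ (E : Type) [Field E] [NumberField E] [Algebra K E] [Algebra E M] [IsScalarTower K E M]
      [Algebra M (AlgebraicClosure E)] [IsScalarTower E M (AlgebraicClosure E)],
      ∀ S' : Set (Ideal (𝓞 E)), S'.Finite →
        (∀ P ∈ S', P.IsMaximal → (p : 𝓞 E) ∉ P →
          p ∣ Nat.card (𝓞 E ⧸ P) ^ Module.finrank E M - 1 →
          P.comap (algebraMap (𝓞 K) (𝓞 E)) ∈ S) →
        ∀ (ρ : G E →* GL (Fin m) A), Continuous ρ → TameAt E S' ρ →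
        ProjectivelyPOver p M (residual ρ) → (Set.range ρ).Finite := by
  obtain ⟨N, hN⟩ := Helper45.EQM.final K n k hk hn M₀ F M hM₀.galois hM₀.split hF.galois hF.cyclic
    hF.degree hF.infinite hd hM
  refine ⟨N, fun p _ hp hpk δ hδ hδp B hB => ?_⟩
  obtain ⟨S, h1, h2, ⟨L, _, _, _, _, h3, h4, h5, h6, h7, h8, h9⟩, h10⟩ :=
    hN p hp hpk δ hδ hδp B hB
  refine ⟨S, fun P hP => (h2 P hP).1, ⟨h1, fun P hP => (h2 P hP).2.1, fun P hP => (h2 P hP).2.2.1,
    fun P hP => (h2 P hP).2.2.2⟩, ⟨L, _, _, _, _, ⟨h3, h4, h6, h7, h8, h9⟩⟩, ?_⟩
  intro A _ _ _ _ _ _ _ hA m hm E _ _ _ _ _ _ _ S' hS' hSS ρ hρ hT hr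
  exact h10 E S' hS' hSS A hA m hm ρ hρ hT hr

/-- If `16 r + 4 c + 2 ≤ p`, then `δ` can be chosen such that the inequality of Golod and Shafarevich
for `δ + 1` generators and `δ + p r` relations is satisfied. -/
theorem golod {p r c : ℕ} (hc : 1 ≤ c) (hr : 1 ≤ r) (h : 16 * r + 4 * c + 2 ≤ p) :
    ∃ δ, δ ≡ 1 [MOD c] ∧ 1 ≤ δ ∧ 2 * δ ≤ p ∧ 4 * (δ + p * r) ≤ (δ + 1) ^ 2 := by
  obtain ⟨s, hs⟩ : ∃ s, p = 2 * s ∨ p = 2 * s + 1 := ⟨p / 2, by omega⟩
  have hd := Nat.div_add_mod (s - 1) c
  have hm := Nat.mod_lt (s - 1) hc
  refine ⟨c * ((s - 1) / c) + 1, ?_, by omega, by omega, ?_⟩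
  · unfold Nat.ModEq
    rw [Nat.mul_add_mod]
  · set δ := c * ((s - 1) / c) + 1 with hδ
    have h2 : p + 3 ≤ 2 * (δ + 1) + 2 * c := by omega
    have h3 : 2 * δ ≤ p := by omega
    have h4 : p * r = r * p := by ring
    rw [h4]
    nlinarith [mul_le_mul h2 h2 (by omega) (by omega)]

end Pool.Agent.Results.MP_924d78_nt.ArbitraryResidualField
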